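import Mathlib

set_option autoImplicit false
open Real

namespace Pool.Agent.H.MP_7987d1_an

noncomputable def sg (y : ℝ) : ℝ := (1 + exp (-y))⁻¹

lemma sg_pos (y : ℝ) : 0 < sg y := by unfold sg; positivity

lemma sg_lt (y : ℝ) : sg y < 1 := inv_lt_one_of_one_lt₀ (by linarith [exp_pos (-y)])

lemma sg_smooth : ContDiff ℝ 2 sg := by
  unfold sg
  exact ContDiff.inv (by fun_prop) fun y => by positivity

lemma sg_deriv (y : ℝ) : HasDerivAt sg (sg y * (1 - sg y)) y := by
  have h := (((hasDerivAt_id y).fun_neg.exp).const_add 1).fun_inv (by positivity)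
  refine h.congr_deriv ?_
  simp only [sg, id]
  field_simp; ring

lemma sg_inj : Function.Injective sg :=
  (strictMono_of_hasDerivAt_pos sg_deriv fun y => mul_pos (sg_pos y) (sub_pos.2 (sg_lt y))).injective

variable {m : ℕ}

noncomputable def u (p : EuclideanSpace ℝ (Fin (m + 1)) × ℝ) : ℝ :=
  sg (√2 / 2 * p.1 (Fin.last m) + 3 / 2 * p.2)

lemma u_smooth : ContDiff ℝ 2 (u (m := m)) := sg_smooth.comp (by fun_prop)

noncomputable def P (m : ℕ) : EuclideanSpace ℝ (Fin (m + 1)) →L[ℝ] ℝ :=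
  (√2 / 2) • EuclideanSpace.proj (Fin.last m)

lemma lin (x : EuclideanSpace ℝ (Fin (m + 1))) (t : ℝ) :
    HasFDerivAt (fun y : EuclideanSpace ℝ (Fin (m + 1)) => √2 / 2 * y (Fin.last m) + 3 / 2 * t)
      (P m) x := (P m).hasFDerivAt.add_const _

lemma u_dx (x : EuclideanSpace ℝ (Fin (m + 1))) (t : ℝ) :
    HasFDerivAt (fun y => u (y, t)) ((u (x, t) * (1 - u (x, t))) • P m) x :=
  (sg_deriv _).comp_hasFDerivAt x (lin x t)

lemma u_dt (x : EuclideanSpace ℝ (Fin (m + 1))) (t : ℝ) :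
    HasDerivAt (fun s => u (x, s)) (u (x, t) * (1 - u (x, t)) * (3 / 2)) t := by
  have h : HasDerivAt (fun s : ℝ => √2 / 2 * x (Fin.last m) + 3 / 2 * s) (3 / 2) t := by
    simpa using ((hasDerivAt_id t).const_mul (3 / 2)).const_add (√2 / 2 * x (Fin.last m))
  exact (sg_deriv _).comp t h

lemma u_lap (x : EuclideanSpace ℝ (Fin (m + 1))) (t : ℝ) :
    (∑ i : Fin (m + 1), iteratedFDeriv ℝ 2 (fun y => u (y, t)) x
      (fun _ => EuclideanSpace.single i (1 : ℝ))) =
      u (x, t) * (1 - u (x, t)) * (1 - 2 * u (x, t)) / 2 := by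
  simp only [iteratedFDeriv_two_apply]
  rw [show fderiv ℝ (fun y => u (y, t)) = fun x => (u (x, t) * (1 - u (x, t))) • P m from
    funext fun x => (u_dx x t).fderiv,
    (((u_dx x t).fun_mul ((u_dx x t).const_sub 1)).smul_const (P m)).fderiv,
    Finset.sum_eq_single (Fin.last m)]
  · simp [P]
    have : √2 * √2 = 2 := Real.mul_self_sqrt (by norm_num)
    linear_combination (u (x, t) * (1 - u (x, t)) * (1 - 2 * u (x, t)) / 4) * this
  · intro i _ hi
    simp [P, hi.symm]
  · simp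

end Pool.Agent.H.MP_7987d1_an
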